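import Mathlib
import Pool.Agent.Helper503_BS.MainB

/-!
# Analytic and algebraic ranks of abelian varieties over the intermediate fields of an extension

Let `A` be an abelian variety over a number field `K`, let `F/K` be a finite Galois extension with
group `G`, let `r` be the order of vanishing of `L(A/F, s)` at `s = 1`, let `R` be the rank of
`A(F)`, and `m = max(r, R)`. We show that all large layers of `G` are invisible for the conjecture
of Birch and Swinnerton-Dyer over the intermediate fields, and that modulo these layers solvable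
normal subgroups are invisible up to bounded index.

The hypotheses on the L-functions are the ones of `Pool.Agent.H541R3.ART.ArtinData G 1`: functions
`L χ` for the irreducible characters `χ` of `G`, the twisted L-functions `L(A/K, χ, s)`, and
`Lin H ψ` for the linear characters `ψ` of the subgroups `H`, the L-functions `L(A/M, ψ, s)` over
the fixed field `M` of `H`, such that `L χ` is meromorphic and not identically zero near `s = 1`,
`Lin H ψ` has no pole at `s = 1`, and `Lin H ψ` is the product of the `L χ ^ ⟨χ|_H, ψ⟩` near
`s = 1`. For abelian varieties with complex multiplication over `K` this is known for all `F/K`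
(Shimura and Taniyama, Hecke). Artin's conjecture for the `L(A/K, χ, s)` is not assumed.
`P` is the finitely generated group `A(F)` with its action of `G`.

`Pool.Agent.Helper503_CP.BuiltW m N` says that the normal subgroup `N` of `G` is obtained from the
trivial subgroup by finitely many steps `M ≤ N'` of the following two kinds: either `N' / M` is
generated by the commutator subgroups of finitely many pairwise commuting subgroups `X i` of `G / M`
of weights `μ i`, such that the sum of the `μ i` over every nonempty set of indices which is closed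
under conjugation is larger than `m`; or `N' / M` is abelian, and its nontrivial linear characters
have more than `m` conjugates. A subgroup `X` has weight `μ` if `μ ≤ 2`, or if `X` is a quotient of a
group of the list `FacO (μ - 1)` of the starting files, for example `SL_n(q)` for odd `q` and
`n ≥ max(μ, 3)`, or if every Heilbronn function on `X` of degree less than `μ` is constant on the
commutator subgroup. So `N = G`, if every chief factor of `G` is a product of more than `m / 2`
nonabelian simple groups, for example for suitable iterated wreath products.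
-/

set_option autoImplicit false

open Pool.Agent.H541R3.ART Pool.Agent.Helper503_CP Pool.Agent.Helper503_BS

/-- Let `L(A/F, s)` have order `r` at `s = 1`, let `R` be the rank of `P = A(F)`, let `r ≤ m` and
`R ≤ m`, and let `N` be a normal subgroup of `G` with `BuiltW m N`.

(1) For every subgroup `U` of `G`, with fixed field `M`, the analytic rank and the algebraic rank of
`A` over `M` are equal to those over `M ∩ F^N`, the fixed field of `U ⊔ N`. So the rank conjecture
holds over `M` if and only if it holds over `M ∩ F^N`. For every irreducible character `χ` of `G`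
which is not trivial on `N`, both `L(A/K, χ, s)` has no zero and no pole at `s = 1` and `χ` does not
occur in `ℂ ⊗ A(F)`. The group `N` acts trivially on `A(F)` modulo torsion.

(2) If the vanishing of the `L(A/M, ψ, 1)` is stable under the Galois group, and if `S` is a normal
subgroup of `G` which contains `N` such that `S / N` is solvable, then the same holds for a normal
subgroup `N'` of `G` with `N ≤ N' ≤ S` and `[S : N'] ≤ 37 ^ (r + R)`. -/
theorem Pool.Agent.Results.MP_1d384c_nt.LayersAndSolvable.result
    (G : Type) [Group G] [Finite G] (A : ArtinData G 1)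
    (P : Type) [AddCommGroup P] [DistribMulAction G P] [Module.Finite ℤ P] (r R m : ℕ)
    (hr : meromorphicOrderAt (A.Lin ⊥ 1) 1 = (r : WithTop ℤ)) (hR : Module.finrank ℤ P = R)
    (hrm : r ≤ m) (hRm : R ≤ m) (N : Subgroup G) [N.Normal] (hN : BuiltW m N) :
    ((∀ U : Subgroup G,
        meromorphicOrderAt (A.Lin U 1) 1 = meromorphicOrderAt (A.Lin (U ⊔ N) 1) 1 ∧
        rk P U = rk P (U ⊔ N) ∧ (BSD A P U ↔ BSD A P (U ⊔ N))) ∧
      (∀ χ ∈ Irr G, (∃ x ∈ N, χ x ≠ χ 1) → BothZero A P χ) ∧
      ∀ x ∈ N, ∀ p : P, ∃ n : ℕ, 0 < n ∧ n • (x • p - p) = 0) ∧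
    (VanishStable A → ∀ S : Subgroup G, S.Normal → N ≤ S →
      Group.IsSolvable (S.map (QuotientGroup.mk' N)) →
      ∃ N' : Subgroup G, N'.Normal ∧ N ≤ N' ∧ N' ≤ S ∧ N'.relIndex S ≤ 37 ^ (r + R) ∧
        (∀ U : Subgroup G,
          meromorphicOrderAt (A.Lin U 1) 1 = meromorphicOrderAt (A.Lin (U ⊔ N') 1) 1 ∧
          rk P U = rk P (U ⊔ N') ∧ (BSD A P U ↔ BSD A P (U ⊔ N'))) ∧
        (∀ χ ∈ Irr G, (∃ x ∈ N', χ x ≠ χ 1) → BothZero A P χ) ∧
        ∀ x ∈ N', ∀ p : P, ∃ n : ℕ, 0 < n ∧ n • (x • p - p) = 0) := by
  have key : ∀ N : Subgroup G, N.Normal →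
      (∀ n ∈ N, ∀ x, (theta A.ord : G → ℂ) (n * x) = theta A.ord x) →
      (∀ n ∈ N, ∀ x, (repC G P).character (n * x) = (repC G P).character x) →
      ((∀ U : Subgroup G,
        meromorphicOrderAt (A.Lin U 1) 1 = meromorphicOrderAt (A.Lin (U ⊔ N) 1) 1 ∧
        rk P U = rk P (U ⊔ N) ∧ (BSD A P U ↔ BSD A P (U ⊔ N))) ∧
      (∀ χ ∈ Irr G, (∃ x ∈ N, χ x ≠ χ 1) → BothZero A P χ) ∧
      ∀ x ∈ N, ∀ p : P, ∃ n : ℕ, 0 < n ∧ n • (x • p - p) = 0) := by
    intro N hN h1 h2
    refine ⟨fun U => ?_, fun χ hχ h => bothZero_of_inv A P N h1 h2 hχ h, triv_of_inv P N h2⟩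
    have h3 := order_sup A N h1 U
    have h4 := rk_sup P N h2 U
    exact ⟨h3, h4, by rw [BSD, BSD, h3, h4]⟩
  obtain ⟨h1, h2⟩ := layers_inv A P hr hR hrm hRm N hN
  refine ⟨key N inferInstance h1 h2, fun hg S hSn hNS hS => ?_⟩
  obtain ⟨N', hn, hNN', hN'S, hidx, h3, h4⟩ :=
    layers_solvable A P hr hR hg hrm hRm N hN S hSn hNS hS
  exact ⟨N', hn, hNN', hN'S, hidx, key N' hn h3 h4⟩
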