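import Pool.Agent.Helper408_SE.Fin

/-!
The order of vanishing at `s = 1` of the L-functions of the Jacobians of the superelliptic curves
`D(t) y ^ (r ^ a) = F(x, t)` over `k(t)`, for all powers of a prime `r`.
-/

set_option autoImplicit false
set_option maxHeartbeats 1000000

open Polynomial

namespace Pool.Agent.Results.MP_1d384c_nt.SuperellipticPrimePowers

/-- The closed points of the affine line over the field `E`: monic irreducible polynomials. -/
abbrev ClosedPt (E : Type) [Field E] : Type := {P : E[X] // P.Monic ∧ Irreducible P}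

/-- The greatest power of `r` dividing `n`. -/
def rPart (r n : ℕ) : ℕ := r ^ padicValNat r n

section generic

variable {E : Type} [Field E]

/-- The residue field of a closed point of the line. -/
def Res (P : ClosedPt E) : Type := AdjoinRoot P.1

noncomputable instance resField (P : ClosedPt E) : Field (Res P) :=
  @AdjoinRoot.instField E _ P.1 ⟨P.2.2⟩

/-- The homomorphism to the residue field. -/
noncomputable def reduction (P : ClosedPt E) : E[X] →+* Res P := AdjoinRoot.mk P.1

/-- The value of a polynomial at a closed point of the line. -/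
noncomputable def value (P : ClosedPt E) (g : E[X]) : Res P := reduction P g

/-- The inclusion of the constants in the residue field. -/
noncomputable def constants (P : ClosedPt E) (c : E) : Res P := AdjoinRoot.of P.1 c

/-- The polynomial `d Y ^ N - h`. -/
noncomputable def binomial (N : ℕ) (d h : E) : E[X] := C d * X ^ N - C h

/-- The closed points of the line at which the polynomial `g` vanishes. -/
def ZeroOf (g : E[X]) : Type := {Q : ClosedPt E // Q.1 ∣ g}

/-- The degree over `E` of such a closed point. -/
noncomputable def ZeroOf.deg {g : E[X]} (Q : ZeroOf g) : ℕ := Q.1.1.natDegree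

/-- The sum of the `rPart r (d deg Q)` over the closed points `Q` of the line at which `g` vanishes. -/
noncomputable def zeroSum (r d : ℕ) (g : E[X]) : ℕ :=
  ∑ᶠ (Q : ClosedPt E) (_ : Q.1 ∣ g), rPart r (d * Q.1.natDegree)

end generic

/-- The Euler product `∏ (1 - T ^ (deg i))`: its coefficient of index `n` is that of the product of
the factors of degree at most `n`. -/
noncomputable def eulerProduct {ι : Type} (deg : ι → ℕ) : PowerSeries ℤ :=
  PowerSeries.mk fun n =>
    PowerSeries.coeff n (∏ᶠ (i : ι) (_ : deg i ≤ n), (1 - PowerSeries.X ^ deg i))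

/-- The multiplicity of the zero `1` of the polynomial `A` modulo `r`. -/
noncomputable def mult (r : ℕ) (A : ℤ[X]) : ℕ :=
  (A.map (Int.castRingHom (ZMod r))).rootMultiplicity 1

/-- The number, with multiplicities, of the zeros `α` of the polynomial `R(T)` with
`(q α) ^ (r ^ b) = 1`, where `q` is the number of elements of `k`: the sum of the orders of vanishing
at the `ζ / q`, where `ζ` is a root of unity of order dividing `r ^ b`. For `b = 0` it is the order of
vanishing at `1 / q`. -/
noncomputable def order (k : Type) (r b : ℕ) (R : ℤ[X]) : ℕ :=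
  Multiset.card ((R.map (Int.castRingHom ℂ)).roots.filter
    (fun z => ((Nat.card k : ℂ) * z) ^ (r ^ b) = 1))

section defs

variable {k : Type} [Field k]

/-- The polynomial `F(x, t)` in `x` over the residue field of the closed point `P` of the
`t`-line. -/
noncomputable def fibre (F : k[X][X]) (P : ClosedPt k) : (Res P)[X] := F.map (reduction P)

/-- The closed points of the `(t, x)`-plane with `D(t) ≠ 0`: a closed point of the `t`-line and a
closed point of the `x`-line over its residue field. -/
structure PlanePt (D : k[X]) : Type where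
  place : ClosedPt k
  ndvd : ¬ place.1 ∣ D
  point : ClosedPt (Res place)

/-- The degree of a closed point of the plane. -/
noncomputable def PlanePt.deg {D : k[X]} (z : PlanePt D) : ℕ :=
  z.place.1.natDegree * z.point.1.natDegree

/-- The value of `D(t)` at the point `z` of the plane. -/
noncomputable def PlanePt.valueD {D : k[X]} (z : PlanePt D) : Res z.point :=
  constants z.point (value z.place D)

/-- The value of `F(x, t)` at the point `z` of the plane. -/
noncomputable def PlanePt.valueF {D : k[X]} (z : PlanePt D) (F : k[X][X]) : Res z.point :=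
  value z.point (fibre F z.place)

/-- The polynomial `D(t) Y ^ N - F(x, t)` in `Y` over the residue field of the point `z` of the
plane. -/
noncomputable def equation (N : ℕ) {D : k[X]} (F : k[X][X]) (z : PlanePt D) : (Res z.point)[X] :=
  binomial N z.valueD (z.valueF F)

/-- The closed points of the surface `D(t) y ^ N = F(x, t)` with `D(t) ≠ 0`: a closed point of the
plane and a closed point of the `y`-line over its residue field where the equation holds. -/
structure SurfacePt (N : ℕ) (D : k[X]) (F : k[X][X]) : Type where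
  base : PlanePt D
  point : ZeroOf (equation N F base)

/-- The degree of a closed point of the surface. -/
noncomputable def SurfacePt.deg {N : ℕ} {D : k[X]} {F : k[X][X]} (w : SurfacePt N D F) : ℕ :=
  w.base.deg * w.point.deg

/-- The closed points of the affine plane curve `F(x, t) = 0`. -/
structure CurvePt (F : k[X][X]) : Type where
  place : ClosedPt k
  point : ZeroOf (fibre F place)

/-- The degree of a closed point of the curve. -/
noncomputable def CurvePt.deg {F : k[X][X]} (z : CurvePt F) : ℕ :=
  z.place.1.natDegree * z.point.deg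

/-- The L-function in the variable `T = q ^ (-s)` of the Jacobian of the curve
`D(t) y ^ N = F(x, t)` over `k(t)`: the product of the `1 - T ^ (deg w)` over the closed points `w` of
the surface, divided by the product of the `1 - T ^ (deg z)` over the closed points `z` of the
`(t, x)`-plane, both with `D(t) ≠ 0`. -/
noncomputable def Lfun (N : ℕ) (D : k[X]) (F : k[X][X]) : PowerSeries ℤ :=
  eulerProduct (fun w : SurfacePt N D F => w.deg) *
    PowerSeries.invOfUnit (eulerProduct (fun z : PlanePt D => z.deg)) 1

/-- The L-function of `D(t) y ^ N = F(x, t)` is the quotient `R / W` of two integral polynomials,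
`W(0) = 1`. -/
structure IsQuotient (N : ℕ) (D : k[X]) (F : k[X][X]) (R W : ℤ[X]) : Prop where
  coeff_zero : W.coeff 0 = 1
  eq : Lfun N D F * (W : PowerSeries ℤ) = (R : PowerSeries ℤ)

/-- If the L-function of `D(t) y ^ N = F(x, t)` is a polynomial `R(T)`, for a power `N` of `r`, then
`R(1)` is not divisible by `r`, and `R(ζ / q) ≠ 0` for all roots of unity `ζ` whose order is a power
of `r`. -/
def NonVanishing (r : ℕ) (D : k[X]) (F : k[X][X]) : Prop :=
  ∀ (a : ℕ) (R : ℤ[X]), Lfun (r ^ a) D F = (R : PowerSeries ℤ) →
    ¬ (r : ℤ) ∣ R.eval 1 ∧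
      ∀ (b : ℕ) (ζ : ℂ), ζ ^ (r ^ b) = 1 → aeval (ζ / (Nat.card k : ℂ)) R ≠ 0

/-- The product of the `1 - T ^ (deg z)` over the closed points `z` of the curve `F(x, t) = 0` is
`B / A` with integral polynomials `A`, `B`, where `A` is not zero modulo `r`. -/
structure IsZeta (r : ℕ) (F : k[X][X]) (A B : ℤ[X]) : Prop where
  ne_zero : A.map (Int.castRingHom (ZMod r)) ≠ 0
  eq : eulerProduct (fun z : CurvePt F => z.deg) * (A : PowerSeries ℤ) = (B : PowerSeries ℤ)

/-- The sum of the `rPart r (deg P)` over the prime factors `P` of `D`. -/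
noncomputable def placeSum (r : ℕ) (D : k[X]) : ℕ := zeroSum r 1 D

/-- The sum of the `rPart r (deg z)` over the closed points `z` of the curve `F(x, t) = 0` with
`D(t) = 0`. -/
noncomputable def curveSum (r : ℕ) (D : k[X]) (F : k[X][X]) : ℕ :=
  ∑ᶠ (P : ClosedPt k) (_ : P.1 ∣ D), zeroSum r P.1.natDegree (fibre F P)

/-- The sum of the `rPart r (deg R)` over the prime factors `R` of the polynomials `P(f(x))`, for
the prime factors `P` of `D`. -/
noncomputable def compSum (r : ℕ) (D f : k[X]) : ℕ :=
  ∑ᶠ (P : ClosedPt k) (_ : P.1 ∣ D), zeroSum r 1 (P.1.comp f)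

/-- The polynomial `f(x) - t` in `x` over `k[t]`. -/
noncomputable def pencil (f : k[X]) : k[X][X] := f.map C - C X

/-- The iterates of the polynomial `x ^ ℓ + c`. -/
noncomputable def iterate (ℓ : ℕ) (c : k) : ℕ → k[X]
  | 0 => X
  | j + 1 => (X ^ ℓ + C c).comp (iterate ℓ c j)

/-- The orbit of zero under `x ^ ℓ + c`, without zero itself. -/
def orbit (ℓ : ℕ) (c : k) : ℕ → k
  | 0 => c
  | i + 1 => orbit ℓ c i ^ ℓ + c

/-- The monic irreducible polynomials whose values in the orbit of zero under `x ^ ℓ + c` are not
`ℓ`-th powers in `k`. -/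
structure IsStable (ℓ : ℕ) (c : k) (P : k[X]) : Prop where
  monic : P.Monic
  irreducible : Irreducible P
  ne_pow : ∀ (i : ℕ) (b : k), P.eval (orbit ℓ c i) ≠ b ^ ℓ

end defs

/-- `r` is a prime dividing `q - 1`, where `q` is the number of elements of `k`. -/
structure IsAdmissible (k : Type) [Field k] (r : ℕ) : Prop where
  prime : r.Prime
  dvd : r ∣ Nat.card k - 1

section bridge

open Pool.Agent.Helper408_SE

variable {k : Type} [Field k]

/-- the equivalence of the two descriptions of the points of the plane -/
noncomputable def planeEquiv (D : k[X]) : Pl D ≃ PlanePt D where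
  toFun z := ⟨z.1.1, z.1.2, z.2⟩
  invFun z := ⟨⟨z.place, z.ndvd⟩, z.point⟩
  left_inv _ := rfl
  right_inv _ := rfl

/-- the equivalence of the two descriptions of the points of the surface -/
noncomputable def surfaceEquiv (N : ℕ) (D : k[X]) (F : k[X][X]) :
    (Σ z : Pl D, {S : T2 z // p2 N F z S}) ≃ SurfacePt N D F where
  toFun w := ⟨planeEquiv D w.1, ⟨w.2.1, w.2.2⟩⟩
  invFun w := ⟨(planeEquiv D).symm w.base, ⟨w.point.1, w.point.2⟩⟩
  left_inv _ := rfl
  right_inv _ := rfl

/-- the equivalence of the two descriptions of the points of the curve -/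
noncomputable def curveEquiv (F : k[X][X]) : Br F ≃ CurvePt F where
  toFun w := ⟨w.1, ⟨w.2.1, w.2.2⟩⟩
  invFun w := ⟨w.place, ⟨w.point.1, w.point.2⟩⟩
  left_inv _ := rfl
  right_inv _ := rfl

theorem product_eq {ι κ : Type} (e : ι ≃ κ) (d : κ → ℕ) (d' : ι → ℕ) (h : ∀ i, d (e i) = d' i) :
    eulerProduct d = Pool.Agent.W343.BSD.eulerProd d' (fun i => 1 - PowerSeries.X ^ d' i) := by
  unfold eulerProduct Pool.Agent.W343.BSD.eulerProd
  ext n
  rw [PowerSeries.coeff_mk, PowerSeries.coeff_mk]
  congr 1
  have h1 : d' = fun i => d (e i) := funext fun i => (h i).symm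
  rw [h1]
  exact (finprod_comp_equiv e
    (f := fun z : κ => ∏ᶠ (_ : d z ≤ n), (1 - PowerSeries.X ^ d z : PowerSeries ℤ))).symm

theorem plane_eq (D : k[X]) : eulerProduct (fun z : PlanePt D => z.deg) = EU ℤ D :=
  product_eq (planeEquiv D) _ _ fun _ => rfl

theorem surface_eq (N : ℕ) (D : k[X]) (F : k[X][X]) :
    eulerProduct (fun w : SurfacePt N D F => w.deg) = ES ℤ N D F :=
  product_eq (surfaceEquiv N D F) _ _ fun _ => rfl

theorem curve_eq (F : k[X][X]) : eulerProduct (fun z : CurvePt F => z.deg) = EB ℤ F :=
  product_eq (curveEquiv F) _ _ fun _ => rfl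

theorem Lfun_spec [Finite k] (N : ℕ) (D : k[X]) (F : k[X][X]) :
    Lfun N D F * EU ℤ D = ES ℤ N D F := by
  unfold Lfun
  rw [plane_eq, surface_eq, mul_assoc, mul_comm (PowerSeries.invOfUnit (EU ℤ D) 1),
    PowerSeries.mul_invOfUnit _ _ (by rw [EU_const]; rfl), mul_one]

theorem zeroSum_eq {E : Type} [Field E] [Finite E] (r d : ℕ) {g : E[X]} (hg : g ≠ 0) :
    zeroSum r d g = ∑ Q ∈ Pool.Agent.W313.Hyp.facs g, rp r (d * Q.1.natDegree) :=
  fsum hg (fun Q => rPart r (d * Q.1.natDegree))

theorem placeSum_eq [Finite k] (r : ℕ) {D : k[X]} (hD : D ≠ 0) :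
    placeSum r D = ∑ P ∈ Pool.Agent.W313.Hyp.facs D, rp r P.1.natDegree := by
  unfold placeSum
  rw [zeroSum_eq r 1 hD]
  simp only [one_mul]

theorem curveSum_eq [Finite k] (r : ℕ) {D : k[X]} (hD : D ≠ 0) {F : k[X][X]} (hF : F.Monic) :
    curveSum r D F = ∑ P ∈ Pool.Agent.W313.Hyp.facs D,
      ∑ Q ∈ Pool.Agent.W313.Hyp.facs (Pool.Agent.Helper408_SE.fibre F P),
        rp r (P.1.natDegree * Q.1.natDegree) := by
  have hfin : ∀ P : Pool.Agent.W313.Hyp.MI k, Finite (Pool.Agent.TH943.HJ.RF P) :=
    Pool.Agent.TH943.HJ.finRF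
  unfold curveSum
  refine (fsum hD (fun P => zeroSum r P.1.natDegree (fibre F P))).trans ?_
  refine Finset.sum_congr rfl fun P _ => ?_
  exact fsum (E := Pool.Agent.TH943.HJ.RF P) (g := Pool.Agent.Helper408_SE.fibre F P)
    (fibre_monic hF P).ne_zero (fun Q => rp r (P.1.natDegree * Q.1.natDegree))

theorem compSum_eq [Finite k] (r : ℕ) {D : k[X]} (hD : D ≠ 0) {f : k[X]}
    (hf : 0 < f.natDegree) :
    compSum r D f = ∑ P ∈ Pool.Agent.W313.Hyp.facs D,
      ∑ R ∈ Pool.Agent.W313.Hyp.facs (P.1.comp f), rp r R.1.natDegree := by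
  unfold compSum
  refine (fsum hD (fun P => zeroSum r 1 (P.1.comp f))).trans ?_
  refine Finset.sum_congr rfl fun P _ => ?_
  rw [zeroSum_eq r 1 (Pool.Agent.TH943.HJ.comp_ne hf P)]
  simp only [one_mul]

theorem iterate_eq (ℓ : ℕ) (c : k) (j : ℕ) : iterate ℓ c j = iter ℓ c j := by
  induction j with
  | zero => rfl
  | succ j ih => rw [iterate, iter, ih]

theorem orbit_eq (ℓ : ℕ) (c : k) (i : ℕ) : orbit ℓ c i = orb ℓ c i := by
  induction i with
  | zero => rfl
  | succ i ih => rw [orbit, orb, ih]

theorem IsStable.irr [Finite k] {ℓ : ℕ} (hℓ : ℓ.Prime) (h2 : ℓ ≠ 2) {c : k} {P : k[X]}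
    (h : IsStable ℓ c P) (j : ℕ) : Irreducible (P.comp (iterate ℓ c j)) := by
  rw [iterate_eq]
  exact irr_iter hℓ (hℓ.odd_of_ne_two h2) c j P h.monic h.irreducible
    (fun i b => by rw [← orbit_eq]; exact h.ne_pow i b)

theorem IsStable.comp [Finite k] {ℓ : ℕ} (hℓ : ℓ.Prime) (h2 : ℓ ≠ 2) {c : k} {P : k[X]}
    (h : IsStable ℓ c P) : IsStable ℓ c (P.comp (X ^ ℓ + C c)) where
  monic := h.monic.comp (phi_monic hℓ.pos c) (by rw [phi_deg]; exact hℓ.ne_zero)
  irreducible := irr_step hℓ (hℓ.odd_of_ne_two h2) c P h.monic h.irreducible (h.ne_pow 0)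
  ne_pow i b := by
    rw [eval_comp, eval_add, eval_pow, eval_X, eval_C]
    exact h.ne_pow (i + 1) b

theorem stable_periodic {ℓ : ℕ} (hℓ : ℓ.Prime) {c : k} (hc : c ^ (ℓ - 1) = -1) {P : k[X]}
    (hm : P.Monic) (hi : Irreducible P) (h0 : ∀ b : k, P.eval 0 ≠ b ^ ℓ)
    (h1 : ∀ b : k, P.eval c ≠ b ^ ℓ) : IsStable ℓ c P where
  monic := hm
  irreducible := hi
  ne_pow i b := by
    have hpow : c ^ ℓ + c = 0 := by
      have h2 : c ^ ℓ = c ^ (ℓ - 1) * c := by
        rw [← pow_succ, Nat.sub_add_cancel hℓ.one_le]
      rw [h2, hc]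
      ring
    have h3 : orbit ℓ c i = c ∨ orbit ℓ c i = 0 := by
      induction i with
      | zero => exact Or.inl rfl
      | succ i ih =>
        show orbit ℓ c i ^ ℓ + c = c ∨ orbit ℓ c i ^ ℓ + c = 0
        rcases ih with ih | ih
        · right
          rw [ih, hpow]
        · left
          rw [ih, zero_pow hℓ.ne_zero, zero_add]
    rcases h3 with h3 | h3
    · rw [h3]
      exact h1 b
    · rw [h3]
      exact h0 b

theorem orbit_two (q ℓ : ℕ) [Fact q.Prime] (h : (2 : ZMod q) ^ ℓ = 1) (i : ℕ) :
    orbit ℓ (1 : ZMod q) i = 1 ∨ orbit ℓ (1 : ZMod q) i = 2 := by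
  induction i with
  | zero => exact Or.inl rfl
  | succ i ih =>
    right
    show orbit ℓ (1 : ZMod q) i ^ ℓ + 1 = 2
    rcases ih with ih | ih
    · rw [ih, one_pow]
      norm_num
    · rw [ih, h]
      norm_num

theorem stable_four (q ℓ : ℕ) [Fact q.Prime] (h : (2 : ZMod q) ^ ℓ = 1)
    (h3 : ∀ b : ZMod q, (-3 : ZMod q) ≠ b ^ ℓ) (h2 : ∀ b : ZMod q, (-2 : ZMod q) ≠ b ^ ℓ) :
    IsStable ℓ (1 : ZMod q) (X - C 4) where
  monic := monic_X_sub_C 4
  irreducible := irreducible_X_sub_C 4
  ne_pow i b := by
    rw [eval_sub, eval_X, eval_C]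
    rcases orbit_two q ℓ h i with h4 | h4
    · rw [h4]
      intro h5
      apply h3 b
      rw [← h5]
      norm_num
    · rw [h4]
      intro h5
      apply h2 b
      rw [← h5]
      norm_num

end bridge

/-- The multiplicity modulo `r` of the zero `1` of the L-function of `D(t) y ^ N = F(x, t)`,
`N = r ^ a`, which is at least the number of the zeros `ζ / q`, where `ζ` is a root of unity whose
order is a power of `r`. -/
def MultFormula {k : Type} [Field k] (r a : ℕ) (D : k[X]) (F : k[X][X]) (A B : ℤ[X]) : Prop :=
  ∀ R W : ℤ[X], IsQuotient (r ^ a) D F R W →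
    (∀ b : ℕ, order k r b R ≤ mult r R) ∧
      mult r R + (r ^ a - 1) * (mult r B + placeSum r D) =
        mult r W + (r ^ a - 1) * (1 + mult r A + curveSum r D F)

/-- The multiplicity modulo `r` of the zero `1` of the L-function of `D(t) y ^ N = f(x) - t`,
`N = r ^ a`, which is at least the number of the zeros `ζ / q`, where `ζ` is a root of unity whose
order is a power of `r`. -/
def PencilFormula {k : Type} [Field k] (r a : ℕ) (D f : k[X]) : Prop :=
  ∀ R W : ℤ[X], IsQuotient (r ^ a) D (pencil f) R W →
    (∀ b : ℕ, order k r b R ≤ mult r R) ∧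
      mult r R + (r ^ a - 1) * placeSum r D = mult r W + (r ^ a - 1) * compSum r D f

/-- The formula for the multiplicity, and the non-vanishing if all the prime factors of `D` are inert
in the branch curve, for all `D` and all `F` monic in `x`. -/
def GeneralCase (k : Type) [Field k] (r : ℕ) : Prop :=
  ∀ (D : k[X]) (F : k[X][X]) (A B : ℤ[X]), D ≠ 0 → F.Monic → IsZeta r F A B →
    (∀ a : ℕ, MultFormula r a D F A B) ∧
    (¬ r ∣ F.natDegree → 1 + mult r A ≤ mult r B →
      (∀ P : ClosedPt k, P.1 ∣ D → Irreducible (fibre F P)) → NonVanishing r D F)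

/-- The formula for the multiplicity, and the non-vanishing if `P(f(x))` is irreducible for all the
prime factors `P` of `D`, for all `D` and `F = f(x) - t`, `f` monic. -/
def PencilCase (k : Type) [Field k] (r : ℕ) : Prop :=
  ∀ D f : k[X], D ≠ 0 → f.Monic → 0 < f.natDegree →
    (∀ a : ℕ, PencilFormula r a D f) ∧
    (¬ r ∣ f.natDegree → (∀ P : ClosedPt k, P.1 ∣ D → Irreducible (P.1.comp f)) →
      NonVanishing r D (pencil f))

/-- The non-vanishing for all the iterates `f` of `x ^ ℓ + c`, if all the prime factors of `D` are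
stable. If `P` is stable, so is `P(x ^ ℓ + c)`. If `c ^ (ℓ - 1) = -1` then `P` is stable if `P(0)` and
`P(c)` are not `ℓ`-th powers. -/
def IterateCase (k : Type) [Field k] (r : ℕ) : Prop :=
  ∀ (ℓ : ℕ) (c : k), ℓ.Prime → ℓ ≠ 2 → ℓ ≠ r →
    (∀ P : k[X], IsStable ℓ c P → IsStable ℓ c (P.comp (X ^ ℓ + C c))) ∧
    (c ^ (ℓ - 1) = -1 → ∀ P : k[X], P.Monic → Irreducible P → (∀ b : k, P.eval 0 ≠ b ^ ℓ) →
      (∀ b : k, P.eval c ≠ b ^ ℓ) → IsStable ℓ c P) ∧
    (∀ D : k[X], D ≠ 0 → (∀ P : ClosedPt k, P.1 ∣ D → IsStable ℓ c P.1) →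
      ∀ j : ℕ, NonVanishing r D (pencil (iterate ℓ c j)))

/-- The polynomial `t - 4` is stable for `x ^ ℓ + 1` over the field with `q` elements. -/
def IsExample (q ℓ : ℕ) [Fact q.Prime] : Prop := IsStable ℓ (1 : ZMod q) (X - C 4)

theorem map_ne_of_coeff {r : ℕ} [Fact r.Prime] {W : ℤ[X]} (h : W.coeff 0 = 1) :
    W.map (Int.castRingHom (ZMod r)) ≠ 0 := by
  intro h0
  have h1 := congrArg (fun p => coeff p 0) h0
  simp only [coeff_map, h, coeff_zero, map_one] at h1
  exact one_ne_zero h1

theorem nonVanishing_of {k : Type} [Field k] [Finite k] {r : ℕ} (hr : IsAdmissible k r)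
    {D : k[X]} {F : k[X][X]}
    (h : ∀ (a : ℕ) (R : ℤ[X]), Lfun (r ^ a) D F = (R : PowerSeries ℤ) → ¬ (r : ℤ) ∣ R.eval 1) :
    NonVanishing r D F := by
  have hrf : Fact r.Prime := ⟨hr.prime⟩
  intro a R hR
  exact ⟨h a R hR, fun b ζ hζ =>
    Pool.Agent.Helper408_SE.root_unity Nat.card_pos hr.dvd R (h a R hR) b ζ hζ⟩

instance fact_seven : Fact (Nat.Prime 7) := ⟨by norm_num⟩

instance fact_thirtyone : Fact (Nat.Prime 31) := ⟨by norm_num⟩

/-- **Non-vanishing at `s = 1` and the order of vanishing modulo `r` for the Jacobians of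
`D(t) y ^ N = F(x, t)`, for all powers `N` of `r`.**

Let `k` be a finite field with `q` elements, `r` a prime dividing `q - 1`, `N = r ^ a`, `D` in `k[t]`
not zero, and `F` in `k[t][x]` monic in `x` of degree `n`; for the interpretation let `r` not divide
`n` and let `F` be separable in `x`. Let `J` be the Jacobian, of dimension `(N - 1) (n - 1) / 2`, of
the curve `D(t) y ^ N = F(x, t)` over `K = k(t)`. The curve has one point at `x = ∞`, and the fibres
of the surface `D(t) y ^ N = F(x, t)` over the places with `D(t) ≠ 0` are geometrically irreducible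
with one point at infinity. Hence `Lfun` is the product of the Euler factors of `L(J, s)` in
`T = q ^ (-s)` at the places prime to `D` modulo which `F` is separable, and of finitely many further
factors of weight at most one, like the other Euler factors of `L(J, s)`; these have neither zeros nor
poles at `T = ζ / q`, `|ζ| = 1`. So `L(J, s)` and `Lfun` have the same order of vanishing there, in
particular at `s = 1`. If `D` is squarefree and not constant, `F` is separable modulo the prime
factors of `D` and the curve `F(x, t) = 0` is smooth outside `D(t) = 0`, then the surface is regular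
over the places prime to `D`, there are no inertia invariants at the places dividing `D`, and `Lfun`
is the product of the polynomial `L(J, s)` and of the inverse of its Euler factor at `t = ∞`, a
polynomial too; this inverse is `1` for `F = f(x) - t` with `f` of degree prime to the characteristic.

(1) Let the product of the `1 - T ^ (deg z)` over the closed points `z` of the branch curve
`F(x, t) = 0` be `B / A` (`A = L_X(T) ∏ (1 - T ^ (deg z))`, the product over the points at infinity,
and `B = (1 - T) (1 - q T)`, if the curve is smooth and `X` its complete model). If `Lfun = R / W` then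
the sum of the orders of vanishing of `R` at the `ζ / q`, where `ζ` is a root of unity of order
dividing `r ^ b`, is at most the multiplicity of the zero `1` of `R` modulo `r`, for all `b`; for
`Lfun = L(J, s)` the sum is the order of vanishing at `s = 1` of `L(J, s)` over the constant extension
of `K` of degree `r ^ b`, and so an upper bound for the rank of `J` over it. For this multiplicity
`mult R + (N - 1) (mult B + ∑ r ^ v(deg P)) = mult W + (N - 1) (1 + mult A + ∑ r ^ v(deg z))`, where `P`
runs through the prime factors of `D`, `z` through the closed points of the branch curve with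
`D(t) = 0`, and `v` is the `r`-adic valuation.

If moreover `r` does not divide `n`, `1 + mult A ≤ mult B` (for a smooth branch curve: it has one point
at infinity, of degree prime to `r`, and `r` does not divide the class number of `X`) and all the
primes dividing `D` are inert in the branch curve, then for ALL `a` the L-function, if it is a
polynomial `R`, satisfies `R(1) ≠ 0` modulo `r` and `R(ζ / q) ≠ 0` for all roots of unity `ζ` of order a
power of `r`. Thus `L(J, s)` does not vanish at `s = 1` over all the constant extensions of `K` of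
degree a power of `r`, since it is the product of the `L(J, ζ / q)` there. By Tate's inequality the
rank of `J` over these fields is zero and equal to the order of vanishing, so that the conjecture of
Birch and Swinnerton-Dyer holds for `J` over these fields.

(2) The case `F = f(x) - t`, where the branch curve is a line: for all monic `f`,
`mult R + (N - 1) ∑ r ^ v(deg P) = mult W + (N - 1) ∑ r ^ v(deg R')`, where `R'` runs through the prime
factors of the polynomials `P(f(x))`; and the L-function does not vanish, as in (1), for all `a`, if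
`r` does not divide `deg f` and `P(f(x))` is irreducible for all prime factors `P` of `D`.

(3) Let `ℓ ≠ r` be an odd prime (dividing `q - 1`, as otherwise there is no stable polynomial), `c` in
`k`, and `f` the `j`-th iterate of `x ^ ℓ + c`, of degree `ℓ ^ j`. Call a monic irreducible `P` in
`k[t]` stable if its values at the points of the orbit of `0` under `x ^ ℓ + c` (after `0` itself) are
not `ℓ`-th powers. The values of `f` at the zeros of `f'` are among these points. If all the prime
factors of `D` are stable, then the L-function of `D(t) y ^ N = f(x) - t` does not vanish, as above,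
for ALL `N = r ^ a` and ALL `j`. For `c ≠ 0` and `j ≥ 2` the curve is not isotrivial, since its stable
reduction at `t = c` is reducible. With `P` also `P(x ^ ℓ + c)` is stable, so that there are
infinitely many stable polynomials if there is one. If `c ^ (ℓ - 1) = -1` the orbit is `{c, 0}`, and
`P` is stable as soon as `P(0)` and `P(c)` are not `ℓ`-th powers.

(4) Examples: `t - 4` is stable over the field with `7` elements for `x ^ 3 + 1` (with `r = 2`), and
over the field with `31` elements for `x ^ 5 + 1` (with `r = 2` or `r = 3`). -/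
theorem result :
    (∀ (k : Type) [Field k] [Finite k] (r : ℕ), IsAdmissible k r →
      GeneralCase k r ∧ PencilCase k r ∧ IterateCase k r) ∧
    IsExample 7 3 ∧ IsExample 31 5 := by
  refine ⟨?_, ?_, ?_⟩
  · intro k _ _ r hr
    have hrf : Fact r.Prime := ⟨hr.prime⟩
    refine ⟨?_, ?_, ?_⟩
    · intro D F A B hD hF hAB
      have hAB' := hAB.eq
      rw [curve_eq] at hAB'
      refine ⟨?_, ?_⟩
      · rintro a R W hRW
        obtain ⟨h0, h1⟩ := Pool.Agent.Helper408_SE.mult_eq (a := a) hr.dvd hD
          (fun P => (Pool.Agent.Helper408_SE.fibre_monic hF P).ne_zero)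
          (Lfun_spec (r ^ a) D F) A B hAB' hAB.ne_zero R W (map_ne_of_coeff hRW.coeff_zero) hRW.eq
        refine ⟨Pool.Agent.Helper408_SE.count_scaled Nat.card_pos hr.dvd R h0, ?_⟩
        rw [placeSum_eq r hD, curveSum_eq r hD hF]
        exact h1
      · intro hd hm hin
        exact nonVanishing_of hr fun a R hR =>
          Pool.Agent.Helper408_SE.nonvan (a := a) hr.dvd hD hF hd hin
            (Lfun_spec (r ^ a) D F) A B hAB' hAB.ne_zero hm R hR
    · intro D f hD hm hf
      refine ⟨?_, ?_⟩
      · rintro a R W hRW
        obtain ⟨h0, h1⟩ := Pool.Agent.Helper408_SE.line_eq (a := a) hr.dvd hf hD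
          (Lfun_spec (r ^ a) D (pencil f)) R W (map_ne_of_coeff hRW.coeff_zero) hRW.eq
        refine ⟨Pool.Agent.Helper408_SE.count_scaled Nat.card_pos hr.dvd R h0, ?_⟩
        rw [placeSum_eq r hD, compSum_eq r hD hf]
        exact h1
      · intro hd hin
        exact nonVanishing_of hr fun a R hR =>
          Pool.Agent.Helper408_SE.line_nonvan (a := a) hr.dvd hm hd hD hin
            (Lfun_spec (r ^ a) D (pencil f)) R hR
    · intro ℓ c hℓ h2 hne
      refine ⟨fun P hP => hP.comp hℓ h2,
        fun hc P hm hi h0 h1 => stable_periodic hℓ hc hm hi h0 h1, ?_⟩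
      intro D hD hst j
      have hdeg : (iterate ℓ c j).natDegree = ℓ ^ j := by
        rw [iterate_eq, Pool.Agent.Helper408_SE.iter_deg]
      have hmon : (iterate ℓ c j).Monic := by
        rw [iterate_eq]
        exact Pool.Agent.Helper408_SE.iter_monic hℓ.pos c j
      have hnd : ¬ r ∣ (iterate ℓ c j).natDegree := by
        rw [hdeg]
        intro h
        exact hne ((Nat.prime_dvd_prime_iff_eq hr.prime hℓ).1 (hr.prime.dvd_of_dvd_pow h)).symm
      exact nonVanishing_of hr fun a R hR =>
        Pool.Agent.Helper408_SE.line_nonvan (a := a) hr.dvd hmon hnd hD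
          (fun P hP => (hst P hP).irr hℓ h2 j) (Lfun_spec (r ^ a) D (pencil (iterate ℓ c j))) R hR
  · exact stable_four 7 3 (by decide) (by decide) (by decide)
  · exact stable_four 31 5 (by decide) (by decide) (by decide)

end Pool.Agent.Results.MP_1d384c_nt.SuperellipticPrimePowers
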